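import Mathlib

/-!
# MP_0ac583_co, Q1: threshold and profile order orientations differently

Let `H` be the 5-cycle with one pendant edge.  `H₂` is the orientation whose cycle is `C_5'''`
and whose pendant edge points to a source of the cycle; `H₁` is the orientation whose cycle is
`C_5'` and whose pendant edge points away from the source of the cycle.  Then `δ⁺_χ(H₂) = 0`
and `δ⁺_χ(H₂, 2) ≥ 1/2`, while `δ⁺_χ(H₁) ≥ δ⁺_χ(C_5') ≥ 1/16` and
`δ⁺_χ(H₁, 2) ≤ δ⁺_χ(C_5', 2) ≤ 9/20`.
-/

set_option autoImplicit false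

open Finset

namespace Pool.Agent.Results.MP_0ac583_co.PendantOrientations

/-- A digraph on `V` without loops; anti-parallel arcs are allowed. -/
structure DG (V : Type) where
  /-- the arcs -/
  Arc : V → V → Prop
  irrefl : ∀ v, ¬ Arc v v

/-- `D` has a (not necessarily induced) subdigraph isomorphic to `H`. -/
def Contains {W V : Type} (H : DG W) (D : DG V) : Prop :=
  ∃ f : W → V, Function.Injective f ∧ ∀ x y, H.Arc x y → D.Arc (f x) (f y)

open scoped Classical in
/-- The set of out-neighbours. -/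
noncomputable def outNbr {V : Type} [Fintype V] (D : DG V) (x : V) : Finset V :=
  Finset.univ.filter (fun y => D.Arc x y)

/-- `δ⁺(D) ≥ d |D|`. -/
def MinOut {V : Type} [Fintype V] (D : DG V) (d : ℝ) : Prop :=
  ∀ x, d * (Fintype.card V : ℝ) ≤ ((outNbr D x).card : ℝ)

/-- The chromatic number of the underlying graph of `D` is at most `k`. -/
def Colorable {V : Type} (D : DG V) (k : ℕ) : Prop :=
  ∃ c : V → Fin k, ∀ x y, D.Arc x y → c x ≠ c y

/-- The `d ≥ 0` for which there is `C` such that every finite `H`-free digraph `D` with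
`δ⁺(D) ≥ d|D|` has `χ(D) ≤ C`. -/
def ThrSet {W : Type} (H : DG W) : Set ℝ :=
  {d | 0 ≤ d ∧ ∃ C : ℕ, ∀ (V : Type) [Fintype V] (D : DG V),
    ¬ Contains H D → MinOut D d → Colorable D C}

/-- The `d ≥ 0` such that every sufficiently large finite `H`-free digraph `D` with
`δ⁺(D) ≥ d|D|` has `χ(D) ≤ k`. -/
def ProfSet {W : Type} (H : DG W) (k : ℕ) : Set ℝ :=
  {d | 0 ≤ d ∧ ∃ n₀ : ℕ, ∀ (V : Type) [Fintype V] (D : DG V), n₀ ≤ Fintype.card V →
    ¬ Contains H D → MinOut D d → Colorable D k}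

/-- The directed chromatic threshold `δ⁺_χ(H)`. -/
noncomputable def thr {W : Type} (H : DG W) : ℝ := sInf (ThrSet H)

/-- The chromatic profile `δ⁺_χ(H, k)`. -/
noncomputable def prof {W : Type} (H : DG W) (k : ℕ) : ℝ := sInf (ProfSet H k)

/-- `H` is an orientation of the simple graph `G`. -/
def IsOrientation {W : Type} (G : SimpleGraph W) (H : DG W) : Prop :=
  (∀ x y, G.Adj x y ↔ (H.Arc x y ∨ H.Arc y x)) ∧ ∀ x y, H.Arc x y → ¬ H.Arc y x

/-- `C_5'`: one source `0` and one sink `4`, joined by the paths `0→1→2→3→4` and `0→4`. -/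
def C5' : DG (Fin 5) where
  Arc x y := (x, y) ∈ [((0 : Fin 5), (1 : Fin 5)), (1, 2), (2, 3), (3, 4), (0, 4)]
  irrefl := by decide

/-- `C_5'` with one more vertex `5` and the arc `0→5`. -/
def H1 : DG (Fin 6) where
  Arc x y := (x, y) ∈ [((0 : Fin 6), (1 : Fin 6)), (1, 2), (2, 3), (3, 4), (0, 4), (0, 5)]
  irrefl := by decide

/-- `C_5'''` (arcs `0→1→2`, `3→2`, `3→4`, `0→4`) with one more vertex `5` and the arc `5→0`. -/
def H2 : DG (Fin 6) where
  Arc x y := (x, y) ∈ [((0 : Fin 6), (1 : Fin 6)), (1, 2), (3, 2), (3, 4), (0, 4), (5, 0)]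
  irrefl := by decide

/-- The 5-cycle `0,1,2,3,4` with a pendant vertex `5` attached at `0`. -/
def G6 : SimpleGraph (Fin 6) where
  Adj x y := (x, y) ∈ [((0 : Fin 6), (1 : Fin 6)), (1, 2), (2, 3), (3, 4), (0, 4), (0, 5)] ∨
    (y, x) ∈ [((0 : Fin 6), (1 : Fin 6)), (1, 2), (2, 3), (3, 4), (0, 4), (0, 5)]
  symm := ⟨fun _ _ h => Or.symm h⟩
  loopless := ⟨by decide⟩

lemma orient1 : IsOrientation G6 H1 := by
  refine ⟨fun x y => Iff.rfl, ?_⟩
  show ∀ x y : Fin 6, (x, y) ∈ [((0 : Fin 6), (1 : Fin 6)), (1, 2), (2, 3), (3, 4), (0, 4), (0, 5)]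
    → ¬ (y, x) ∈ [((0 : Fin 6), (1 : Fin 6)), (1, 2), (2, 3), (3, 4), (0, 4), (0, 5)]
  decide

lemma orient2 : IsOrientation G6 H2 := by
  constructor
  · show ∀ x y : Fin 6, ((x, y) ∈ [((0 : Fin 6), (1 : Fin 6)), (1, 2), (2, 3), (3, 4), (0, 4), (0, 5)] ∨
      (y, x) ∈ [((0 : Fin 6), (1 : Fin 6)), (1, 2), (2, 3), (3, 4), (0, 4), (0, 5)]) ↔
      ((x, y) ∈ [((0 : Fin 6), (1 : Fin 6)), (1, 2), (3, 2), (3, 4), (0, 4), (5, 0)] ∨
      (y, x) ∈ [((0 : Fin 6), (1 : Fin 6)), (1, 2), (3, 2), (3, 4), (0, 4), (5, 0)])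
    decide
  · show ∀ x y : Fin 6, (x, y) ∈ [((0 : Fin 6), (1 : Fin 6)), (1, 2), (3, 2), (3, 4), (0, 4), (5, 0)]
      → ¬ (y, x) ∈ [((0 : Fin 6), (1 : Fin 6)), (1, 2), (3, 2), (3, 4), (0, 4), (5, 0)]
    decide

lemma colorable_of_type {V κ : Type} [Fintype κ] (D : DG V) (c : V → κ)
    (hc : ∀ x y, D.Arc x y → c x ≠ c y) {k : ℕ} (hk : Fintype.card κ ≤ k) : Colorable D k := by
  obtain ⟨e⟩ : Nonempty (κ ↪ Fin k) := by
    rw [Function.Embedding.nonempty_iff_card_le]; simpa using hk
  exact ⟨fun x => e (c x), fun x y h h' => hc x y h (e.injective h')⟩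

lemma thr_nonempty {W : Type} (H : DG W) : (2 : ℝ) ∈ ThrSet H := by
  refine ⟨by norm_num, 0, ?_⟩
  intro V _ D _ hmin
  by_cases hV : Nonempty V
  · obtain ⟨x⟩ := hV
    exfalso
    have h1 := hmin x
    have h2 : ((outNbr D x).card : ℝ) ≤ Fintype.card V := by
      exact_mod_cast Finset.card_le_univ _
    have h3 : (0 : ℝ) < Fintype.card V := by
      exact_mod_cast Fintype.card_pos_iff.2 ⟨x⟩
    linarith
  · rw [not_nonempty_iff] at hV
    exact ⟨fun x => hV.elim x, fun x => hV.elim x⟩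

lemma prof_nonempty {W : Type} (H : DG W) (k : ℕ) : (2 : ℝ) ∈ ProfSet H k := by
  refine ⟨by norm_num, 0, ?_⟩
  intro V _ D _ _ hmin
  by_cases hV : Nonempty V
  · obtain ⟨x⟩ := hV
    exfalso
    have h1 := hmin x
    have h2 : ((outNbr D x).card : ℝ) ≤ Fintype.card V := by
      exact_mod_cast Finset.card_le_univ _
    have h3 : (0 : ℝ) < Fintype.card V := by
      exact_mod_cast Fintype.card_pos_iff.2 ⟨x⟩
    linarith
  · rw [not_nonempty_iff] at hV
    exact ⟨fun x => hV.elim x, fun x => hV.elim x⟩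

/-! ## The threshold of `H2` is zero -/

lemma union_bound {V : Type} [DecidableEq V] (N : V → Finset V) (δ : ℝ) (t : ℕ) (s : Finset V) :
    (∀ x ∈ s, δ ≤ ((N x).card : ℝ)) →
    (∀ x ∈ s, ∀ y ∈ s, x ≠ y → (N x ∩ N y).card ≤ 5) → s.card ≤ t →
    (s.card : ℝ) * (δ - 5 * t) ≤ ((s.biUnion N).card : ℝ) := by
  induction s using Finset.induction_on with
  | empty => intro _ _ _; simp
  | insert a s ha ih =>
    intro h1 h2 h3
    have hs : s.card ≤ t := by
      rw [Finset.card_insert_of_notMem ha] at h3; omega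
    have ih' := ih (fun x hx => h1 x (Finset.mem_insert_of_mem hx))
      (fun x hx y hy => h2 x (Finset.mem_insert_of_mem hx) y (Finset.mem_insert_of_mem hy)) hs
    rw [Finset.biUnion_insert, Finset.card_insert_of_notMem ha]
    have hcard := Finset.card_union_add_card_inter (N a) (s.biUnion N)
    have hint : (N a ∩ s.biUnion N).card ≤ 5 * t := by
      have e : N a ∩ s.biUnion N = s.biUnion (fun y => N a ∩ N y) := by
        ext z; simp only [Finset.mem_inter, Finset.mem_biUnion]; tauto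
      rw [e]
      calc (s.biUnion (fun y => N a ∩ N y)).card ≤ ∑ y ∈ s, (N a ∩ N y).card :=
            Finset.card_biUnion_le
        _ ≤ ∑ y ∈ s, 5 := by
            apply Finset.sum_le_sum
            intro y hy
            exact h2 a (Finset.mem_insert_self a s) y (Finset.mem_insert_of_mem hy)
              (fun h => ha (h ▸ hy))
        _ = 5 * s.card := by rw [Finset.sum_const, smul_eq_mul, mul_comm]
        _ ≤ 5 * t := by omega
    have ha1 := h1 a (Finset.mem_insert_self a s)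
    have hcard' : (((N a ∪ s.biUnion N).card : ℝ)) + ((N a ∩ s.biUnion N).card : ℝ)
        = ((N a).card : ℝ) + ((s.biUnion N).card : ℝ) := by exact_mod_cast hcard
    have hint' : ((N a ∩ s.biUnion N).card : ℝ) ≤ 5 * t := by exact_mod_cast hint
    push_cast
    nlinarith

lemma exists_notMem {V : Type} [DecidableEq V] (A B : Finset V) (h : B.card < A.card) :
    ∃ a ∈ A, a ∉ B := by
  by_contra hcon
  push_neg at hcon
  exact absurd (Finset.card_le_card hcon) (by omega)

lemma contains_H2 {V : Type} (D : DG V) (w u v b x a : V)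
    (hwu : D.Arc w u) (huv : D.Arc u v) (hvb : D.Arc v b) (hxb : D.Arc x b)
    (hxa : D.Arc x a) (hua : D.Arc u a)
    (hnd : [u, v, b, x, a, w].Nodup) : Contains H2 D := by
  refine ⟨![u, v, b, x, a, w], ?_, ?_⟩
  · intro i j hij
    have := List.nodup_iff_injective_get.1 hnd
    have key : ∀ i : Fin 6, (![u, v, b, x, a, w] : Fin 6 → V) i = [u, v, b, x, a, w].get i := by
      intro i; fin_cases i <;> rfl
    rw [key, key] at hij
    exact this hij
  · intro i j hij
    change (i, j) ∈ [((0 : Fin 6), (1 : Fin 6)), (1, 2), (3, 2), (3, 4), (0, 4), (5, 0)] at hij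
    simp only [List.mem_cons, Prod.mk.injEq, List.not_mem_nil, or_false] at hij
    rcases hij with h | h | h | h | h | h <;> obtain ⟨rfl, rfl⟩ := h
    · exact huv
    · exact hvb
    · exact hxb
    · exact hxa
    · exact hua
    · exact hwu

lemma thrH2_mem (d : ℝ) (hd : 0 < d) : d ∈ ThrSet H2 := by
  classical
  obtain ⟨q, hq⟩ := exists_nat_ge (2 / d)
  have hqd : 2 ≤ (q : ℝ) * d := by
    rw [div_le_iff₀ hd] at hq; exact hq
  refine ⟨hd.le, 4 * q + 5 * q * q, ?_⟩
  intro V _ D hfree hmin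
  by_cases hn : Fintype.card V ≤ 5 * q * q
  · exact colorable_of_type D (fun x : V => x) (fun x y h h' => D.irrefl x (by
      have h'' : x = y := h'
      rw [← h''] at h; exact h)) (by omega)
  push_neg at hn
  -- a maximal family of vertices with almost disjoint out-neighbourhoods
  let Good : Finset V → Prop := fun X =>
    ∀ x ∈ X, ∀ y ∈ X, x ≠ y → (outNbr D x ∩ outNbr D y).card ≤ 5
  obtain ⟨X, hX, hmax⟩ := Finset.exists_max_image
    ((Finset.univ : Finset (Finset V)).filter Good) Finset.card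
    ⟨∅, by simp [Good]⟩
  have hXG : Good X := (Finset.mem_filter.1 hX).2
  have hXcard : X.card ≤ q := by
    by_contra hcon
    push_neg at hcon
    obtain ⟨Y, hYX, hYc⟩ := Finset.exists_subset_card_eq hcon.le
    have hb := union_bound (outNbr D) (d * (Fintype.card V : ℝ)) q Y
      (fun x _ => hmin x) (fun x hx y hy h => hXG x (hYX hx) y (hYX hy) h) hYc.le
    have hle : ((Y.biUnion (outNbr D)).card : ℝ) ≤ Fintype.card V := by
      exact_mod_cast Finset.card_le_univ _
    rw [hYc] at hb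
    have hn' : (5 * q * q : ℝ) < (Fintype.card V : ℝ) := by exact_mod_cast hn
    have hnn : (0 : ℝ) ≤ (Fintype.card V : ℝ) := by positivity
    have h1 := mul_le_mul_of_nonneg_right hqd hnn
    nlinarith
  have hG : ∀ v, ∃ x, v ∉ X → (x ∈ X ∧ 6 ≤ (outNbr D v ∩ outNbr D x).card) := by
    intro v
    by_cases hv : v ∈ X
    · exact ⟨v, fun h => absurd hv h⟩
    by_contra hcon
    push_neg at hcon
    have hgood : Good (insert v X) := by
      intro x hx y hy hxy
      rw [Finset.mem_insert] at hx hy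
      rcases hx with rfl | hx <;> rcases hy with rfl | hy
      · exact absurd rfl hxy
      · have := (hcon y).2 hy; omega
      · have := (hcon x).2 hx
        rw [Finset.inter_comm]; omega
      · exact hXG x hx y hy hxy
    have := hmax (insert v X) (Finset.mem_filter.2 ⟨Finset.mem_univ _, hgood⟩)
    rw [Finset.card_insert_of_notMem hv] at this
    omega
  choose G hGm using hG
  let P : V → V → Prop := fun w v => D.Arc w v ∧ w ∉ X ∧ v ∉ X ∧ G w = G v
  have hpath : ∀ w u v, P w u → P u v → w ≠ v → False := by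
    intro w u v hwu huv hwv
    apply hfree
    obtain ⟨awu, hw, hu, e1⟩ := hwu
    obtain ⟨auv, -, hv, e2⟩ := huv
    have hu6 := (hGm u hu).2
    have hv6 := (hGm v hv).2
    have hx := (hGm u hu).1
    rw [← e2] at hv6
    set x := G u with hxdef
    obtain ⟨a, haA, haB⟩ := exists_notMem (outNbr D u ∩ outNbr D x) {u, v, x, w} (by
      have : ({u, v, x, w} : Finset V).card ≤ 4 := Finset.card_le_four
      omega)
    obtain ⟨b, hbA, hbB⟩ := exists_notMem (outNbr D v ∩ outNbr D x) {u, v, x, w, a} (by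
      have : ({u, v, x, w, a} : Finset V).card ≤ 5 := Finset.card_le_five
      omega)
    simp only [Finset.mem_inter, outNbr, Finset.mem_filter, Finset.mem_univ, true_and] at haA hbA
    simp only [Finset.mem_insert, Finset.mem_singleton, not_or] at haB hbB
    have hux : u ≠ x := fun h => hu (h ▸ hx)
    have hvx : v ≠ x := fun h => hv (h ▸ hx)
    have hwx : w ≠ x := fun h => hw (h ▸ hx)
    have huv' : u ≠ v := fun h => D.irrefl u (by rw [← h] at auv; exact auv)
    have hwu' : w ≠ u := fun h => D.irrefl u (by rw [h] at awu; exact awu)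
    refine contains_H2 D w u v b x a awu auv hbA.1 hbA.2 haA.2 haA.1 ?_
    obtain ⟨a1, a2, a3, a4⟩ := haB
    obtain ⟨b1, b2, b3, b4, b5⟩ := hbB
    simp only [List.nodup_cons, List.mem_cons, List.not_mem_nil, or_false, not_or,
      List.nodup_nil, not_false_eq_true, and_true]
    exact ⟨⟨huv', Ne.symm b1, hux, Ne.symm a1, Ne.symm hwu'⟩,
      ⟨Ne.symm b2, hvx, Ne.symm a2, Ne.symm hwv⟩, ⟨b3, b5, b4⟩, ⟨Ne.symm a3, Ne.symm hwx⟩, a4⟩
  let e : V ≃ Fin (Fintype.card V) := Fintype.equivFin V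
  let col : V → Fin 4 := fun v =>
    if ∃ w, P w v then (if ∃ w, P w v ∧ e v < e w then 1 else 2) else 0
  have hcol3 : ∀ v, col v ≠ 3 := by
    intro v
    simp only [col]
    split_ifs <;> decide
  let c : V → X × Fin 4 := fun v =>
    if h : v ∈ X then (⟨v, h⟩, 3) else (⟨G v, (hGm v h).1⟩, col v)
  refine colorable_of_type D c ?_ ?_
  · intro x y hxy hc
    by_cases hx : x ∈ X <;> by_cases hy : y ∈ X
    · simp only [c, hx, hy, dif_pos, Prod.mk.injEq, Subtype.mk.injEq, and_true] at hc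
      exact D.irrefl x (by rw [← hc] at hxy; exact hxy)
    · simp only [c, hx, hy, dif_pos, dif_neg, not_false_eq_true, Prod.mk.injEq] at hc
      exact hcol3 y hc.2.symm
    · simp only [c, hx, hy, dif_pos, dif_neg, not_false_eq_true, Prod.mk.injEq] at hc
      exact hcol3 x hc.2
    · simp only [c, hx, hy, dif_neg, not_false_eq_true, Prod.mk.injEq, Subtype.mk.injEq] at hc
      have hP : P x y := ⟨hxy, hx, hy, hc.1⟩
      have hxey : e x ≠ e y := fun h => D.irrefl x (by
        have := e.injective h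
        rw [← this] at hxy; exact hxy)
      have hy0 : ∃ w, P w y := ⟨x, hP⟩
      by_cases hx0 : ∃ w, P w x
      · obtain ⟨w, hw⟩ := hx0
        have hwy : w = y := by
          by_contra hne
          exact hpath w x y hw hP hne
        subst hwy
        have hxonly : ∀ z, P z x → z = w := fun z hz => by
          by_contra hne; exact hpath z x w hz hP hne
        have hyonly : ∀ z, P z w → z = x := fun z hz => by
          by_contra hne; exact hpath z w x hz hw hne
        have hc2 := hc.2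
        simp only [col, if_pos hy0, if_pos (⟨w, hw⟩ : ∃ z, P z x)] at hc2
        rcases lt_or_gt_of_ne hxey with hlt | hgt
        · have h1 : ∃ z, P z x ∧ e x < e z := ⟨w, hw, hlt⟩
          have h2 : ¬ ∃ z, P z w ∧ e w < e z := by
            rintro ⟨z, hz, hz'⟩
            rw [hyonly z hz] at hz'
            exact absurd hz' (not_lt.2 hlt.le)
          rw [if_pos h1, if_neg h2] at hc2
          exact absurd hc2 (by decide)
        · have h1 : ¬ ∃ z, P z x ∧ e x < e z := by
            rintro ⟨z, hz, hz'⟩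
            rw [hxonly z hz] at hz'
            exact absurd hz' (not_lt.2 hgt.le)
          have h2 : ∃ z, P z w ∧ e w < e z := ⟨x, hP, hgt⟩
          rw [if_neg h1, if_pos h2] at hc2
          exact absurd hc2 (by decide)
      · have hc2 := hc.2
        simp only [col, if_pos hy0, if_neg hx0] at hc2
        split_ifs at hc2 <;> exact absurd hc2 (by decide)
  · rw [Fintype.card_prod, Fintype.card_coe, Fintype.card_fin]
    nlinarith [Nat.zero_le (5 * q * q)]

lemma thr_H2 : thr H2 = 0 := by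
  apply le_antisymm
  · apply le_of_forall_pos_le_add
    intro ε hε
    rw [zero_add]
    exact csInf_le ⟨0, fun x hx => hx.1⟩ (thrH2_mem ε hε)
  · exact le_csInf ⟨2, thr_nonempty H2⟩ (fun x hx => hx.1)

/-! ## The profile of `H2` at `k = 2` is at least `1/2` -/

/-- The digraph showing `δ⁺_χ(H₂, 2) ≥ 1/2`: a bidirected complete bipartite graph with two more
vertices, one arc between them and all arcs from them to one side. -/
def DB (N : ℕ) : DG ((Bool × Fin N) ⊕ Bool) where
  Arc x y := match x, y with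
    | Sum.inl (p, _), Sum.inl (q, _) => p ≠ q
    | Sum.inl _, Sum.inr _ => False
    | Sum.inr _, Sum.inl (q, _) => q = true
    | Sum.inr s, Sum.inr t => s = false ∧ t = true
  irrefl := by
    rintro (⟨p, i⟩ | s)
    · simp
    · cases s <;> simp

/-- the side of a vertex -/
def sideB {N : ℕ} : (Bool × Fin N) ⊕ Bool → Bool
  | Sum.inl (p, _) => p
  | Sum.inr _ => false

lemma DB_into {N : ℕ} (x y : (Bool × Fin N) ⊕ Bool) (h : (DB N).Arc x y) :
    y ≠ Sum.inr false := by
  rintro rfl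
  rcases x with ⟨p, i⟩ | s
  · exact h
  · exact absurd h.2 (by decide)

lemma DB_into' {N : ℕ} (x : (Bool × Fin N) ⊕ Bool) (h : (DB N).Arc x (Sum.inr true)) :
    x = Sum.inr false := by
  rcases x with ⟨p, i⟩ | s
  · exact h.elim
  · have h' : s = false := h.1
    rw [h']

lemma DB_side {N : ℕ} (x y : (Bool × Fin N) ⊕ Bool) (h : (DB N).Arc x y) :
    (x = Sum.inr false ∧ y = Sum.inr true) ∨ sideB x ≠ sideB y := by
  rcases x with ⟨p, i⟩ | s <;> rcases y with ⟨q, j⟩ | t
  · right; exact h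
  · exact h.elim
  · right
    have h' : q = true := h
    show false ≠ q
    rw [h']; decide
  · left
    have h1 : s = false := h.1
    have h2 : t = true := h.2
    rw [h1, h2]; exact ⟨rfl, rfl⟩

lemma DB_free (N : ℕ) : ¬ Contains H2 (DB N) := by
  rintro ⟨f, -, hf⟩
  have a01 : (DB N).Arc (f 0) (f 1) := hf 0 1 (by show _ ∈ _; decide)
  have a12 : (DB N).Arc (f 1) (f 2) := hf 1 2 (by show _ ∈ _; decide)
  have a32 : (DB N).Arc (f 3) (f 2) := hf 3 2 (by show _ ∈ _; decide)
  have a34 : (DB N).Arc (f 3) (f 4) := hf 3 4 (by show _ ∈ _; decide)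
  have a04 : (DB N).Arc (f 0) (f 4) := hf 0 4 (by show _ ∈ _; decide)
  have a50 : (DB N).Arc (f 5) (f 0) := hf 5 0 (by show _ ∈ _; decide)
  have n0 := DB_into _ _ a50
  have n1 := DB_into _ _ a01
  have s01 : sideB (f 0) ≠ sideB (f 1) := (DB_side _ _ a01).resolve_left (fun h => n0 h.1)
  have s04 : sideB (f 0) ≠ sideB (f 4) := (DB_side _ _ a04).resolve_left (fun h => n0 h.1)
  have s12 : sideB (f 1) ≠ sideB (f 2) := (DB_side _ _ a12).resolve_left (fun h => n1 h.1)
  have s32 : sideB (f 3) ≠ sideB (f 2) := (DB_side _ _ a32).resolve_left (fun h => by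
    rw [h.2] at a12; exact n1 (DB_into' _ a12))
  have s34 : sideB (f 3) ≠ sideB (f 4) := (DB_side _ _ a34).resolve_left (fun h => by
    rw [h.2] at a04; exact n0 (DB_into' _ a04))
  revert s01 s04 s12 s32 s34
  generalize sideB (f 0) = b0
  generalize sideB (f 1) = b1
  generalize sideB (f 2) = b2
  generalize sideB (f 3) = b3
  generalize sideB (f 4) = b4
  revert b0 b1 b2 b3 b4
  decide

lemma DB_chi (N : ℕ) (hN : 0 < N) : ¬ Colorable (DB N) 2 := by
  rintro ⟨c, hc⟩
  have h1 := hc (Sum.inr false) (Sum.inr true) ⟨rfl, rfl⟩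
  have h2 := hc (Sum.inr false) (Sum.inl (true, ⟨0, hN⟩)) rfl
  have h3 := hc (Sum.inr true) (Sum.inl (true, ⟨0, hN⟩)) rfl
  revert h1 h2 h3
  generalize c (Sum.inr false) = a
  generalize c (Sum.inr true) = b
  generalize c (Sum.inl (true, ⟨0, hN⟩)) = e
  revert a b e
  decide

lemma DB_out (N : ℕ) (x : (Bool × Fin N) ⊕ Bool) : N ≤ (outNbr (DB N) x).card := by
  classical
  obtain ⟨q, hq⟩ : ∃ q : Bool, ∀ j : Fin N, (DB N).Arc x (Sum.inl (q, j)) := by
    rcases x with ⟨p, i⟩ | s
    · exact ⟨!p, fun j => by show p ≠ !p; cases p <;> decide⟩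
    · exact ⟨true, fun j => rfl⟩
  have hinj : Function.Injective (fun j : Fin N => (Sum.inl (q, j) : (Bool × Fin N) ⊕ Bool)) := by
    intro a b h
    simpa using h
  calc N = (Finset.univ.image (fun j : Fin N => (Sum.inl (q, j) : (Bool × Fin N) ⊕ Bool))).card := by
        rw [Finset.card_image_of_injective _ hinj, Finset.card_univ, Fintype.card_fin]
    _ ≤ _ := by
        apply Finset.card_le_card
        intro y hy
        obtain ⟨j, -, rfl⟩ := Finset.mem_image.1 hy
        exact Finset.mem_filter.2 ⟨Finset.mem_univ _, hq j⟩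

lemma prof_H2 : 1 / 2 ≤ prof H2 2 := by
  apply le_csInf ⟨2, prof_nonempty H2 2⟩
  rintro d ⟨hd0, n₀, hd⟩
  by_contra hlt
  push_neg at hlt
  obtain ⟨N, hN⟩ := exists_nat_ge (max (n₀ : ℝ) (1 / (1 - 2 * d)))
  have hN1 : (n₀ : ℝ) ≤ N := le_trans (le_max_left _ _) hN
  have hN2 : 1 / (1 - 2 * d) ≤ N := le_trans (le_max_right _ _) hN
  have hpos : 0 < 1 - 2 * d := by linarith
  have hNpos : (0 : ℝ) < N := lt_of_lt_of_le (by positivity) hN2
  rw [div_le_iff₀ hpos] at hN2
  have hn : n₀ ≤ N := by exact_mod_cast hN1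
  have hcard : Fintype.card ((Bool × Fin N) ⊕ Bool) = 2 * N + 2 := by
    simp [Fintype.card_sum, Fintype.card_prod]
  refine DB_chi N (by exact_mod_cast hNpos) (hd _ (DB N) ?_ (DB_free N) ?_)
  · rw [hcard]; omega
  · intro x
    have h1 : (N : ℝ) ≤ ((outNbr (DB N) x).card : ℝ) := by exact_mod_cast DB_out N x
    rw [hcard]
    push_cast
    nlinarith

/-! ## `H1` against `C_5'` -/

lemma H1_contains_C5 {V : Type} (D : DG V) (h : Contains H1 D) : Contains C5' D := by
  obtain ⟨f, hf, ha⟩ := h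
  refine ⟨fun i => f i.castSucc, fun i j hij => Fin.castSucc_injective 5 (hf hij), ?_⟩
  intro x y hxy
  apply ha
  revert x y
  show ∀ x y : Fin 5, (x, y) ∈ [((0 : Fin 5), (1 : Fin 5)), (1, 2), (2, 3), (3, 4), (0, 4)] →
    (x.castSucc, y.castSucc) ∈
      [((0 : Fin 6), (1 : Fin 6)), (1, 2), (2, 3), (3, 4), (0, 4), (0, 5)]
  decide

lemma thr_H1 : thr C5' ≤ thr H1 := by
  apply csInf_le_csInf ⟨0, fun x hx => hx.1⟩ ⟨2, thr_nonempty H1⟩
  rintro d ⟨hd0, C, hC⟩
  exact ⟨hd0, C, fun V _ D hfree hmin => hC V D (fun h => hfree (H1_contains_C5 D h)) hmin⟩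

lemma prof_H1 (k : ℕ) : prof H1 k ≤ prof C5' k := by
  classical
  apply le_csInf ⟨2, prof_nonempty C5' k⟩
  rintro d ⟨hd0, n₀, hd⟩
  apply le_of_forall_pos_le_add
  intro ε hε
  refine csInf_le ⟨0, fun x hx => hx.1⟩ ⟨by linarith, ?_⟩
  obtain ⟨m, hm⟩ := exists_nat_ge (6 / ε)
  refine ⟨max n₀ m, ?_⟩
  intro V _ D hcard hfree hmin
  have hn0 : n₀ ≤ Fintype.card V := le_trans (le_max_left _ _) hcard
  have hm' : m ≤ Fintype.card V := le_trans (le_max_right _ _) hcard
  have hnn : (0 : ℝ) ≤ (Fintype.card V : ℝ) := by positivity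
  refine hd V D hn0 ?_ (fun x => le_trans (by nlinarith) (hmin x))
  rintro ⟨f, hf, ha⟩
  apply hfree
  have h6 : 6 ≤ (outNbr D (f 0)).card := by
    have h1 := hmin (f 0)
    have h2 : (6 : ℝ) ≤ ε * (Fintype.card V : ℝ) := by
      rw [div_le_iff₀ hε] at hm
      have : (m : ℝ) ≤ (Fintype.card V : ℝ) := by exact_mod_cast hm'
      nlinarith
    have h3 : (6 : ℝ) ≤ ((outNbr D (f 0)).card : ℝ) := by nlinarith
    exact_mod_cast h3
  obtain ⟨z, hz, hz'⟩ := exists_notMem (outNbr D (f 0)) (Finset.univ.image f) (by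
    rw [Finset.card_image_of_injective _ hf, Finset.card_univ, Fintype.card_fin]; omega)
  have hz0 : D.Arc (f 0) z := (Finset.mem_filter.1 hz).2
  have hzf : ∀ i, f i ≠ z := fun i hi => hz' (Finset.mem_image.2 ⟨i, Finset.mem_univ _, hi⟩)
  refine ⟨Fin.snoc (α := fun _ => V) f z, ?_, ?_⟩
  · intro i j hij
    induction i using Fin.lastCases with
    | last =>
      induction j using Fin.lastCases with
      | last => rfl
      | cast j =>
        rw [Fin.snoc_last, Fin.snoc_castSucc] at hij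
        exact absurd hij.symm (hzf j)
    | cast i =>
      induction j using Fin.lastCases with
      | last =>
        rw [Fin.snoc_last, Fin.snoc_castSucc] at hij
        exact absurd hij (hzf i)
      | cast j =>
        rw [Fin.snoc_castSucc, Fin.snoc_castSucc] at hij
        rw [hf hij]
  · have e0 : (Fin.snoc (α := fun _ => V) f z : Fin 6 → V) 0 = f 0 :=
      Fin.snoc_castSucc (α := fun _ => V) z f 0
    have e1 : (Fin.snoc (α := fun _ => V) f z : Fin 6 → V) 1 = f 1 :=
      Fin.snoc_castSucc (α := fun _ => V) z f 1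
    have e2 : (Fin.snoc (α := fun _ => V) f z : Fin 6 → V) 2 = f 2 :=
      Fin.snoc_castSucc (α := fun _ => V) z f 2
    have e3 : (Fin.snoc (α := fun _ => V) f z : Fin 6 → V) 3 = f 3 :=
      Fin.snoc_castSucc (α := fun _ => V) z f 3
    have e4 : (Fin.snoc (α := fun _ => V) f z : Fin 6 → V) 4 = f 4 :=
      Fin.snoc_castSucc (α := fun _ => V) z f 4
    have e5 : (Fin.snoc (α := fun _ => V) f z : Fin 6 → V) 5 = z :=
      Fin.snoc_last (α := fun _ => V) z f
    intro i j hij
    change (i, j) ∈ [((0 : Fin 6), (1 : Fin 6)), (1, 2), (2, 3), (3, 4), (0, 4), (0, 5)] at hij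
    simp only [List.mem_cons, Prod.mk.injEq, List.not_mem_nil, or_false] at hij
    rcases hij with h | h | h | h | h | h <;> obtain ⟨rfl, rfl⟩ := h
    · rw [e0, e1]; exact ha 0 1 (by show _ ∈ _; decide)
    · rw [e1, e2]; exact ha 1 2 (by show _ ∈ _; decide)
    · rw [e2, e3]; exact ha 2 3 (by show _ ∈ _; decide)
    · rw [e3, e4]; exact ha 3 4 (by show _ ∈ _; decide)
    · rw [e0, e4]; exact ha 0 4 (by show _ ∈ _; decide)
    · rw [e0, e5]; exact hz0

/-! ## The threshold of `C_5'` is positive -/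

/-- Quadruples. -/
abbrev Q4 (N : ℕ) : Type := Fin N × Fin N × Fin N × Fin N

/-- Arcs of the iterated shift digraph on increasing quadruples. -/
def shiftArc {N : ℕ} (v w : Q4 N) : Prop :=
  w.1 = v.2.1 ∧ w.2.1 = v.2.2.1 ∧ w.2.2.1 = v.2.2.2 ∧
    v.1 < v.2.1 ∧ v.2.1 < v.2.2.1 ∧ v.2.2.1 < v.2.2.2 ∧ v.2.2.2 < w.2.2.2

/-- The sets joined to a quadruple. -/
def cut {N : ℕ} (v : Q4 N) (T : Fin N → Bool) : Prop :=
  v.1 ≠ v.2.2.2 → (T v.1 = true ∧ T v.2.2.2 = false)

/-- The middle layer. -/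
abbrev MM (N : ℕ) : Type := (Fin N → Bool) × Q4 N

/-- The digraph showing `δ⁺_χ(C_5') ≥ 1/16`: the iterated shift digraph, a layer of subsets, and
a bidirected complete bipartite graph. -/
def DS (N : ℕ) : DG (Q4 N ⊕ (MM N ⊕ (MM N ⊕ MM N))) where
  Arc x y := match x, y with
    | Sum.inl v, Sum.inl w => shiftArc v w
    | Sum.inl v, Sum.inr (Sum.inl m) => cut v m.1
    | Sum.inr (Sum.inl _), Sum.inr (Sum.inr (Sum.inl _)) => True
    | Sum.inr (Sum.inr (Sum.inl _)), Sum.inr (Sum.inr (Sum.inr _)) => True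
    | Sum.inr (Sum.inr (Sum.inr _)), Sum.inr (Sum.inr (Sum.inl _)) => True
    | _, _ => False
  irrefl := by
    rintro (v | m | m | m)
    · intro h
      exact absurd h.1 (ne_of_lt h.2.2.2.1)
    · exact fun h => h
    · exact fun h => h
    · exact fun h => h

lemma DS_free (N : ℕ) : ¬ Contains C5' (DS N) := by
  rintro ⟨f, -, hf⟩
  have a01 : (DS N).Arc (f 0) (f 1) := hf 0 1 (by show _ ∈ _; decide)
  have a12 : (DS N).Arc (f 1) (f 2) := hf 1 2 (by show _ ∈ _; decide)
  have a23 : (DS N).Arc (f 2) (f 3) := hf 2 3 (by show _ ∈ _; decide)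
  have a34 : (DS N).Arc (f 3) (f 4) := hf 3 4 (by show _ ∈ _; decide)
  have a04 : (DS N).Arc (f 0) (f 4) := hf 0 4 (by show _ ∈ _; decide)
  revert a01 a12 a23 a34 a04
  generalize f 0 = v0
  generalize f 1 = v1
  generalize f 2 = v2
  generalize f 3 = v3
  generalize f 4 = v4
  rcases v0 with v0 | v0 | v0 | v0 <;> rcases v4 with v4 | v4 | v4 | v4 <;>
    rcases v1 with v1 | v1 | v1 | v1 <;> rcases v2 with v2 | v2 | v2 | v2 <;>
    rcases v3 with v3 | v3 | v3 | v3 <;> intro a01 a12 a23 a34 a04 <;>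
    first
    | exact a01.elim
    | exact a12.elim
    | exact a23.elim
    | exact a34.elim
    | exact a04.elim
    | skip
  · -- all in the shift digraph
    obtain ⟨b1, b2, b3, b4, b5, b6, b7⟩ := a01
    obtain ⟨c1, c2, c3, c4, c5, c6, c7⟩ := a12
    obtain ⟨d1, d2, d3, d4, d5, d6, d7⟩ := a23
    obtain ⟨e1, e2, e3, e4, e5, e6, e7⟩ := a34
    obtain ⟨g1, g2, g3, g4, g5, g6, g7⟩ := a04
    simp only [Fin.lt_def, Fin.ext_iff] at *
    omega
  · -- the last vertex is in the middle layer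
    obtain ⟨b1, b2, b3, b4, b5, b6, b7⟩ := a01
    obtain ⟨c1, c2, c3, c4, c5, c6, c7⟩ := a12
    obtain ⟨d1, d2, d3, d4, d5, d6, d7⟩ := a23
    have h0 : v0.1 ≠ v0.2.2.2 := ne_of_lt (b4.trans (b5.trans b6))
    have e3 : v3.1 = v0.2.2.2 := by rw [d1, c2, b3]
    have h3 : v3.1 ≠ v3.2.2.2 := by
      simp only [Fin.lt_def, Fin.ext_iff, ne_eq] at *
      omega
    have t0 := (a04 h0).2
    have t3 := (a34 h3).1
    rw [e3, t0] at t3
    exact absurd t3 (by decide)

lemma DS_chi (N C : ℕ) (hN : 2 ^ (2 ^ (2 ^ C)) < N) : ¬ Colorable (DS N) C := by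
  classical
  rintro ⟨c, hc⟩
  -- colours of quadruples
  let c4 : Fin N → Fin N → Fin N → Fin N → Fin C := fun x y z t => c (Sum.inl (x, y, z, t))
  let c3 : Fin N → Fin N → Fin N → Finset (Fin C) := fun x y z =>
    Finset.univ.filter (fun a => ∃ t, z < t ∧ c4 x y z t = a)
  let c2 : Fin N → Fin N → Finset (Finset (Fin C)) := fun x y =>
    Finset.univ.filter (fun a => ∃ t, y < t ∧ c3 x y t = a)
  let c1 : Fin N → Finset (Finset (Finset (Fin C))) := fun x =>
    Finset.univ.filter (fun a => ∃ t, x < t ∧ c2 x t = a)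
  have h4 : ∀ x y z t s, x < y → y < z → z < t → t < s → c4 x y z t ≠ c4 y z t s := by
    intro x y z t s h1 h2 h3 h4
    exact hc (Sum.inl (x, y, z, t)) (Sum.inl (y, z, t, s)) ⟨rfl, rfl, rfl, h1, h2, h3, h4⟩
  have h3 : ∀ x y z t, x < y → y < z → z < t → c3 x y z ≠ c3 y z t := by
    intro x y z t h1 h2 h3 he
    have hm : c4 x y z t ∈ c3 x y z := Finset.mem_filter.2 ⟨Finset.mem_univ _, t, h3, rfl⟩
    rw [he] at hm
    obtain ⟨-, s, hs, hs'⟩ := Finset.mem_filter.1 hm
    exact h4 x y z t s h1 h2 h3 hs hs'.symm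
  have h2 : ∀ x y z, x < y → y < z → c2 x y ≠ c2 y z := by
    intro x y z h1 h2 he
    have hm : c3 x y z ∈ c2 x y := Finset.mem_filter.2 ⟨Finset.mem_univ _, z, h2, rfl⟩
    rw [he] at hm
    obtain ⟨-, s, hs, hs'⟩ := Finset.mem_filter.1 hm
    exact h3 x y z s h1 h2 hs hs'.symm
  have h1 : ∀ x y, x < y → c1 x ≠ c1 y := by
    intro x y h1 he
    have hm : c2 x y ∈ c1 x := Finset.mem_filter.2 ⟨Finset.mem_univ _, y, h1, rfl⟩
    rw [he] at hm
    obtain ⟨-, s, hs, hs'⟩ := Finset.mem_filter.1 hm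
    exact h2 x y s h1 hs hs'.symm
  have hinj : Function.Injective c1 := by
    intro x y hxy
    rcases lt_trichotomy x y with h | h | h
    · exact absurd hxy (h1 x y h)
    · exact h
    · exact absurd hxy.symm (h1 y x h)
  have := Fintype.card_le_of_injective c1 hinj
  simp only [Fintype.card_fin, Fintype.card_finset] at this
  omega

open scoped Classical in
lemma cut_card {N : ℕ} (v : Q4 N) : Fintype.card (MM N) ≤
    4 * ((Finset.univ : Finset (MM N)).filter (fun m => cut v m.1)).card := by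
  set A := ((Finset.univ : Finset (MM N)).filter (fun m => cut v m.1)) with hA
  let g : MM N → (Bool × Bool) × MM N := fun m =>
    ((m.1 v.1, m.1 v.2.2.2),
      (Function.update (Function.update m.1 v.1 true) v.2.2.2 false, m.2))
  have hg : Function.Injective g := by
    rintro ⟨T, q⟩ ⟨T', q'⟩ h
    simp only [g, Prod.mk.injEq] at h
    obtain ⟨⟨h1, h2⟩, h3, h4⟩ := h
    refine Prod.ext ?_ h4
    funext i
    by_cases hi : i = v.2.2.2
    · rw [hi]; exact h2
    by_cases hi' : i = v.1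
    · rw [hi']; exact h1
    have := congrFun h3 i
    rw [Function.update_of_ne hi, Function.update_of_ne hi', Function.update_of_ne hi,
      Function.update_of_ne hi'] at this
    exact this
  have himg : (Finset.univ : Finset (MM N)).image g ⊆ (Finset.univ : Finset (Bool × Bool)) ×ˢ A := by
    intro y hy
    obtain ⟨m, -, rfl⟩ := Finset.mem_image.1 hy
    refine Finset.mem_product.2 ⟨Finset.mem_univ _, ?_⟩
    rw [hA]
    refine Finset.mem_filter.2 ⟨Finset.mem_univ _, ?_⟩
    intro hne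
    constructor
    · show Function.update (Function.update m.1 v.1 true) v.2.2.2 false v.1 = true
      rw [Function.update_of_ne hne, Function.update_self]
    · show Function.update (Function.update m.1 v.1 true) v.2.2.2 false v.2.2.2 = false
      rw [Function.update_self]
  have := Finset.card_le_card himg
  rw [Finset.card_image_of_injective _ hg, Finset.card_product, Finset.card_univ,
    Finset.card_univ] at this
  simpa using this

lemma DS_out (N : ℕ) (x : Q4 N ⊕ (MM N ⊕ (MM N ⊕ MM N))) :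
    Fintype.card (MM N) ≤ 4 * (outNbr (DS N) x).card := by
  classical
  rcases x with v | m | m | m
  · refine le_trans (cut_card v) (Nat.mul_le_mul_left 4 ?_)
    have hinj : Function.Injective (fun m : MM N =>
        (Sum.inr (Sum.inl m) : Q4 N ⊕ (MM N ⊕ (MM N ⊕ MM N)))) := by
      intro a b h; simpa using h
    rw [← Finset.card_image_of_injective _ hinj]
    apply Finset.card_le_card
    intro y hy
    obtain ⟨j, hj, rfl⟩ := Finset.mem_image.1 hy
    exact Finset.mem_filter.2 ⟨Finset.mem_univ _, (Finset.mem_filter.1 hj).2⟩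
  · have hinj : Function.Injective (fun m : MM N =>
        (Sum.inr (Sum.inr (Sum.inl m)) : Q4 N ⊕ (MM N ⊕ (MM N ⊕ MM N)))) := by
      intro a b h; simpa using h
    have : (Finset.univ : Finset (MM N)).card ≤
        (outNbr (DS N) (Sum.inr (Sum.inl m))).card := by
      rw [← Finset.card_image_of_injective _ hinj]
      apply Finset.card_le_card
      intro y hy
      obtain ⟨j, hj, rfl⟩ := Finset.mem_image.1 hy
      exact Finset.mem_filter.2 ⟨Finset.mem_univ _, trivial⟩
    rw [Finset.card_univ] at this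
    omega
  · have hinj : Function.Injective (fun m : MM N =>
        (Sum.inr (Sum.inr (Sum.inr m)) : Q4 N ⊕ (MM N ⊕ (MM N ⊕ MM N)))) := by
      intro a b h; simpa using h
    have : (Finset.univ : Finset (MM N)).card ≤
        (outNbr (DS N) (Sum.inr (Sum.inr (Sum.inl m)))).card := by
      rw [← Finset.card_image_of_injective _ hinj]
      apply Finset.card_le_card
      intro y hy
      obtain ⟨j, hj, rfl⟩ := Finset.mem_image.1 hy
      exact Finset.mem_filter.2 ⟨Finset.mem_univ _, trivial⟩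
    rw [Finset.card_univ] at this
    omega
  · have hinj : Function.Injective (fun m : MM N =>
        (Sum.inr (Sum.inr (Sum.inl m)) : Q4 N ⊕ (MM N ⊕ (MM N ⊕ MM N)))) := by
      intro a b h; simpa using h
    have : (Finset.univ : Finset (MM N)).card ≤
        (outNbr (DS N) (Sum.inr (Sum.inr (Sum.inr m)))).card := by
      rw [← Finset.card_image_of_injective _ hinj]
      apply Finset.card_le_card
      intro y hy
      obtain ⟨j, hj, rfl⟩ := Finset.mem_image.1 hy
      exact Finset.mem_filter.2 ⟨Finset.mem_univ _, trivial⟩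
    rw [Finset.card_univ] at this
    omega

lemma DS_card (N : ℕ) :
    Fintype.card (Q4 N ⊕ (MM N ⊕ (MM N ⊕ MM N))) ≤ 4 * Fintype.card (MM N) := by
  have h1 : Fintype.card (MM N) = Fintype.card (Fin N → Bool) * Fintype.card (Q4 N) :=
    Fintype.card_prod _ _
  have h2 : 1 ≤ Fintype.card (Fin N → Bool) := Fintype.card_pos
  have h3 : Fintype.card (Q4 N) ≤ Fintype.card (MM N) := by
    rw [h1]; exact Nat.le_mul_of_pos_left _ h2
  simp only [Fintype.card_sum]
  omega

lemma thr_C5_pos : 1 / 16 ≤ thr C5' := by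
  apply le_csInf ⟨2, thr_nonempty C5'⟩
  rintro d ⟨hd0, C, hC⟩
  by_contra hlt
  push_neg at hlt
  refine DS_chi (2 ^ (2 ^ (2 ^ C)) + 1) C (by omega) (hC _ (DS _) (DS_free _) ?_)
  intro x
  have h1 := DS_out _ x
  have h2 := DS_card (2 ^ (2 ^ (2 ^ C)) + 1)
  have h3 : (Fintype.card (Q4 (2 ^ (2 ^ (2 ^ C)) + 1) ⊕ (MM (2 ^ (2 ^ (2 ^ C)) + 1) ⊕
      (MM (2 ^ (2 ^ (2 ^ C)) + 1) ⊕ MM (2 ^ (2 ^ (2 ^ C)) + 1)))) : ℝ) ≤
      16 * ((outNbr (DS (2 ^ (2 ^ (2 ^ C)) + 1)) x).card : ℝ) := by
    have : Fintype.card (Q4 (2 ^ (2 ^ (2 ^ C)) + 1) ⊕ (MM (2 ^ (2 ^ (2 ^ C)) + 1) ⊕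
      (MM (2 ^ (2 ^ (2 ^ C)) + 1) ⊕ MM (2 ^ (2 ^ (2 ^ C)) + 1)))) ≤
      16 * (outNbr (DS (2 ^ (2 ^ (2 ^ C)) + 1)) x).card := by omega
    exact_mod_cast this
  have h4 : (0 : ℝ) ≤ (Fintype.card (Q4 (2 ^ (2 ^ (2 ^ C)) + 1) ⊕ (MM (2 ^ (2 ^ (2 ^ C)) + 1) ⊕
      (MM (2 ^ (2 ^ (2 ^ C)) + 1) ⊕ MM (2 ^ (2 ^ (2 ^ C)) + 1)))) : ℝ) := by positivity
  nlinarith

/-! ## The profile of `C_5'` at `k = 2` is at most `9/20` -/

lemma three {V : Type} [Fintype V] [DecidableEq V] (X Y Z : Finset V) :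
    X.card + Y.card + Z.card ≤
      Fintype.card V + (X ∩ Y).card + (X ∩ Z).card + (Y ∩ Z).card := by
  have h1 := Finset.card_union_add_card_inter X Y
  have h2 := Finset.card_union_add_card_inter (X ∪ Y) Z
  have h3 : ((X ∪ Y) ∩ Z).card ≤ (X ∩ Z).card + (Y ∩ Z).card := by
    rw [Finset.union_inter_distrib_right]; exact Finset.card_union_le _ _
  have h4 := Finset.card_le_univ (X ∪ Y ∪ Z)
  omega

lemma contains_C5 {V : Type} (D : DG V) (x a b c z : V)
    (hxa : D.Arc x a) (hab : D.Arc a b) (hbc : D.Arc b c) (hcz : D.Arc c z)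
    (hxz : D.Arc x z) (hnd : [x, a, b, c, z].Nodup) : Contains C5' D := by
  refine ⟨![x, a, b, c, z], ?_, ?_⟩
  · intro i j hij
    have := List.nodup_iff_injective_get.1 hnd
    have key : ∀ i : Fin 5, (![x, a, b, c, z] : Fin 5 → V) i = [x, a, b, c, z].get i := by
      intro i; fin_cases i <;> rfl
    rw [key, key] at hij
    exact this hij
  · intro i j hij
    change (i, j) ∈ [((0 : Fin 5), (1 : Fin 5)), (1, 2), (2, 3), (3, 4), (0, 4)] at hij
    simp only [List.mem_cons, Prod.mk.injEq, List.not_mem_nil, or_false] at hij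
    rcases hij with h | h | h | h | h <;> obtain ⟨rfl, rfl⟩ := h
    · exact hxa
    · exact hab
    · exact hbc
    · exact hcz
    · exact hxz

open scoped Classical in
lemma path3 {V : Type} [Fintype V] (D : DG V) (hfree : ¬ Contains C5' D) {x a b c : V}
    (hxa : D.Arc x a) (hab : D.Arc a b) (hbc : D.Arc b c)
    (hxb : x ≠ b) (hxc : x ≠ c) (hac : a ≠ c) :
    (outNbr D x ∩ outNbr D c).card ≤ 2 := by
  by_contra h
  rw [not_le] at h
  obtain ⟨z, hz, hz'⟩ := exists_notMem (outNbr D x ∩ outNbr D c) {a, b} (by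
    have : ({a, b} : Finset V).card ≤ 2 := Finset.card_le_two
    omega)
  simp only [Finset.mem_inter, outNbr, Finset.mem_filter, Finset.mem_univ, true_and] at hz
  simp only [Finset.mem_insert, Finset.mem_singleton, not_or] at hz'
  have ne : ∀ {u v : V}, D.Arc u v → u ≠ v := fun {u v} h h' => D.irrefl u (by
    rw [← h'] at h; exact h)
  refine hfree (contains_C5 D x a b c z hxa hab hbc hz.2 hz.1 ?_)
  simp only [List.nodup_cons, List.mem_cons, List.not_mem_nil, or_false, not_or,
    List.nodup_nil, not_false_eq_true, and_true]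
  exact ⟨⟨ne hxa, hxb, hxc, ne hz.1⟩, ⟨ne hab, hac, Ne.symm hz'.1⟩,
    ⟨ne hbc, Ne.symm hz'.2⟩, ne hz.2⟩

open scoped Classical in
lemma no_trans {V : Type} [Fintype V] (D : DG V) (hfree : ¬ Contains C5' D)
    (hn : 100 ≤ Fintype.card V) (hdeg : ∀ x, 9 * Fintype.card V ≤ 20 * (outNbr D x).card)
    {x y : V} (hxy : D.Arc x y) : outNbr D x ∩ outNbr D y = ∅ := by
  by_contra hne
  obtain ⟨p, hp⟩ := Finset.nonempty_iff_ne_empty.2 hne
  have ne : ∀ {u v : V}, D.Arc u v → u ≠ v := fun {u v} h h' => D.irrefl u (by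
    rw [← h'] at h; exact h)
  have arc : ∀ {u v : V}, v ∈ outNbr D u → D.Arc u v := fun {u v} h => (Finset.mem_filter.1 h).2
  have hxp : D.Arc x p := arc (Finset.mem_inter.1 hp).1
  have hyp : D.Arc y p := arc (Finset.mem_inter.1 hp).2
  -- two vertices whose out-neighbourhoods nearly avoid that of `x`
  have inter : ∀ z w, (outNbr D z ∩ outNbr D x).card ≤ 2 → (outNbr D w ∩ outNbr D x).card ≤ 2 →
      7 ≤ (outNbr D z ∩ outNbr D w).card := by
    intro z w h1 h2
    have h3 := three (outNbr D z) (outNbr D w) (outNbr D x)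
    have h4 := hdeg z
    have h5 := hdeg w
    have h6 := hdeg x
    omega
  obtain ⟨q, hq, hq'⟩ := exists_notMem (outNbr D p) {x, y} (by
    have : ({x, y} : Finset V).card ≤ 2 := Finset.card_le_two
    have := hdeg p
    omega)
  simp only [Finset.mem_insert, Finset.mem_singleton, not_or] at hq'
  obtain ⟨qx, qy⟩ := hq'
  have hpq := arc hq
  have hqS : (outNbr D q ∩ outNbr D x).card ≤ 2 := by
    rw [Finset.inter_comm]
    exact path3 D hfree hxy hyp hpq (ne hxp) (Ne.symm qx) (Ne.symm qy)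
  have hrS : ∀ r, D.Arc q r → r ≠ x → r ≠ p → (outNbr D r ∩ outNbr D x).card ≤ 2 := by
    intro r hr h1 h2
    rw [Finset.inter_comm]
    exact path3 D hfree hxp hpq hr (Ne.symm qx) (Ne.symm h1) (Ne.symm h2)
  obtain ⟨r, hr, hr'⟩ := exists_notMem (outNbr D q) {x, p} (by
    have : ({x, p} : Finset V).card ≤ 2 := Finset.card_le_two
    have := hdeg q
    omega)
  simp only [Finset.mem_insert, Finset.mem_singleton, not_or] at hr'
  have hqr := arc hr
  have h1 := inter q r hqS (hrS r hqr hr'.1 hr'.2)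
  obtain ⟨b, hb, hb'⟩ := exists_notMem (outNbr D q ∩ outNbr D r) {x, p} (by
    have : ({x, p} : Finset V).card ≤ 2 := Finset.card_le_two
    omega)
  simp only [Finset.mem_insert, Finset.mem_singleton, not_or] at hb'
  have hqb := arc (Finset.mem_inter.1 hb).1
  have hrb := arc (Finset.mem_inter.1 hb).2
  have h2 := inter q b hqS (hrS b hqb hb'.1 hb'.2)
  obtain ⟨c, hc, hc'⟩ := exists_notMem (outNbr D q ∩ outNbr D b) {x, p, r} (by
    have : ({x, p, r} : Finset V).card ≤ 3 := Finset.card_le_three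
    omega)
  simp only [Finset.mem_insert, Finset.mem_singleton, not_or] at hc'
  have hqc := arc (Finset.mem_inter.1 hc).1
  have hbc := arc (Finset.mem_inter.1 hc).2
  have h3 := inter q c hqS (hrS c hqc hc'.1 hc'.2.1)
  have h4 := path3 D hfree hqr hrb hbc (ne hqb) (ne hqc) (Ne.symm hc'.2.2)
  omega

open scoped Classical in
lemma two_col {V : Type} [Fintype V] (D : DG V) (hfree : ¬ Contains C5' D)
    (hn : 100 ≤ Fintype.card V) (hdeg : ∀ x, 9 * Fintype.card V ≤ 20 * (outNbr D x).card) :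
    Colorable D 2 := by
  obtain ⟨x₀⟩ : Nonempty V := Fintype.card_pos_iff.1 (by omega)
  have nt : ∀ {x y : V}, D.Arc x y → (outNbr D x ∩ outNbr D y).card = 0 := fun {x y} h => by
    rw [no_trans D hfree hn hdeg h]; rfl
  have arc : ∀ {u v : V}, v ∈ outNbr D u → D.Arc u v := fun {u v} h => (Finset.mem_filter.1 h).2
  set A := outNbr D x₀ with hA
  have hAc := hdeg x₀
  rw [← hA] at hAc
  refine ⟨fun v => if (outNbr D v ∩ A).Nonempty then 0 else 1, ?_⟩
  intro u v huv
  have huv0 := nt huv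
  have hu := hdeg u
  have hv := hdeg v
  by_cases h1 : (outNbr D u ∩ A).Nonempty <;> by_cases h2 : (outNbr D v ∩ A).Nonempty
  · exfalso
    obtain ⟨y, hy⟩ := h1
    obtain ⟨y', hy'⟩ := h2
    have a1 := nt (arc (Finset.mem_inter.1 hy).1)
    have a2 : (A ∩ outNbr D y).card = 0 := nt (arc (Finset.mem_inter.1 hy).2)
    have b1 := nt (arc (Finset.mem_inter.1 hy').1)
    have b2 : (A ∩ outNbr D y').card = 0 := nt (arc (Finset.mem_inter.1 hy').2)
    have t1 := three (outNbr D u) A (outNbr D y)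
    have t2 := three (outNbr D v) A (outNbr D y')
    have d1 := hdeg y
    have d2 := hdeg y'
    have e1 := Finset.card_union_add_card_inter A (outNbr D y)
    have e2 := Finset.card_le_univ (A ∪ outNbr D y)
    have e3 := Finset.card_union_add_card_inter (outNbr D u ∩ A) (outNbr D v ∩ A)
    have e4 : ((outNbr D u ∩ A) ∪ (outNbr D v ∩ A)).card ≤ A.card :=
      Finset.card_le_card (Finset.union_subset Finset.inter_subset_right
        Finset.inter_subset_right)
    have e5 : ((outNbr D u ∩ A) ∩ (outNbr D v ∩ A)).card ≤ (outNbr D u ∩ outNbr D v).card :=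
      Finset.card_le_card (Finset.inter_subset_inter Finset.inter_subset_left
        Finset.inter_subset_left)
    omega
  · simp only [h1, h2, if_true, if_false]; decide
  · simp only [h1, h2, if_true, if_false]; decide
  · exfalso
    rw [Finset.not_nonempty_iff_eq_empty] at h1 h2
    have t := three (outNbr D u) (outNbr D v) A
    rw [h1, h2, Finset.card_empty] at t
    omega

lemma prof_C5 : prof C5' 2 ≤ 9 / 20 := by
  refine csInf_le ⟨0, fun x hx => hx.1⟩ ⟨by norm_num, 100, ?_⟩
  intro V _ D hcard hfree hmin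
  refine two_col D hfree hcard (fun x => ?_)
  have h := hmin x
  have : (9 * Fintype.card V : ℝ) ≤ 20 * ((outNbr D x).card : ℝ) := by linarith
  exact_mod_cast this

/-- **MP_0ac583_co, Q1, negated form, with `k = 2`.** -/
theorem result :
    IsOrientation G6 H1 ∧ IsOrientation G6 H2 ∧
      thr H2 = 0 ∧ 1 / 16 ≤ thr H1 ∧ prof H1 2 ≤ 9 / 20 ∧ 1 / 2 ≤ prof H2 2 :=
  ⟨orient1, orient2, thr_H2, thr_C5_pos.trans thr_H1, (prof_H1 2).trans prof_C5, prof_H2⟩

end Pool.Agent.Results.MP_0ac583_co.PendantOrientations
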